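import Pool.Agent.Run7.h262.EC.Exi
import Pool.Agent.Run7.h262.TB.Port

/-!
# Chern's conjecture for quotients of domains: the linear holonomy of a counterexample is discrete

Chern's conjecture says that closed affine manifolds have Euler characteristic zero. Let `Ω` be an
open subset of `ℝⁿ` and let `Γ` be a group of affine transformations of `ℝⁿ` which acts freely and
properly discontinuously on `Ω` with compact quotient `M = Γ \ Ω`. Let `H` be a torsion-free
subgroup of finite index of `Γ` (it exists by the lemma of Selberg), and consider any flag of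
subspaces of `ℝⁿ` preserved by the linear holonomy of `H` (for instance the trivial flag). We prove
that the Euler characteristic of `M` is zero unless the homomorphism of `H` to the product of the
projective linear groups of the quotients of the flag is injective with discrete image.

The Euler characteristic is computed from decompositions of `M` into open cells which are images of
relatively open convex polytopes of `Ω`. Such decompositions exist.
-/

set_option autoImplicit false

namespace Pool.Agent.Results.MP_1fa9a4_gt.DiscreteHolonomy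

open Run7.h262.EC Run7.h262.TB

section defs

variable {Γ E : Type} [Group Γ] [NormedAddCommGroup E] [NormedSpace ℝ E]

/-- The group `Γ` of affine transformations acts freely and properly discontinuously and with
compact quotient on the open set `Ω`; the quotient `Γ \ Ω` is a closed affine manifold. -/
structure Divides (hol : Γ →* (E ≃ᵃ[ℝ] E)) (Ω : Set E) : Prop where
  /-- the domain is open -/
  isOpen : IsOpen Ω
  /-- the domain is not empty -/
  nonempty : Ω.Nonempty
  /-- the domain is invariant -/
  inv : ∀ γ : Γ, ∀ x ∈ Ω, hol γ x ∈ Ω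
  /-- the action is free -/
  free : ∀ γ : Γ, ∀ x ∈ Ω, hol γ x = x → γ = 1
  /-- the action is properly discontinuous -/
  pd : ∀ K : Set E, IsCompact K → K ⊆ Ω → {γ : Γ | ∃ x ∈ K, hol γ x ∈ K}.Finite
  /-- the quotient is compact -/
  cc : ∃ K : Set E, IsCompact K ∧ K ⊆ Ω ∧ ∀ x ∈ Ω, ∃ γ : Γ, hol γ x ∈ K

/-- An open cell of dimension `d` in `Ω`: a non-empty set given by finitely many affine equations
and strict affine inequalities, whose closure is a compact subset of `Ω`. -/
structure IsCell (Ω C : Set E) (d : ℕ) : Prop where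
  /-- the cell is not empty -/
  nonempty : C.Nonempty
  /-- equations and strict inequalities -/
  cut : ∃ I J : Finset (E →ᵃ[ℝ] ℝ), C = {x | (∀ φ ∈ I, φ x = 0) ∧ ∀ ψ ∈ J, 0 < ψ x}
  /-- the dimension -/
  dim : Module.finrank ℝ (vectorSpan ℝ C) = d
  /-- the closure is compact -/
  compact : IsCompact (closure C)
  /-- the closure is contained in `Ω` -/
  sub : closure C ⊆ Ω

/-- The images of the cells `C i`, of dimension `d i`, form a partition of `Γ \ Ω` into `k` embedded
open cells: every point of `Ω` lies in exactly one translate of one of them. -/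
structure CellDecomposition (hol : Γ →* (E ≃ᵃ[ℝ] E)) (Ω : Set E) {k : ℕ} (C : Fin k → Set E)
    (d : Fin k → ℕ) : Prop where
  /-- the sets are cells -/
  cell : ∀ i, IsCell Ω (C i) (d i)
  /-- their translates form a partition -/
  part : ∀ x ∈ Ω, ∃! p : Γ × Fin k, x ∈ hol p.1 '' C p.2


/-- `0 = S 0 ⊆ S 1 ⊆ … ⊆ S m = E` is a flag of subspaces preserved by the linear parts of the
elements of the subgroup `H` (for `m = 1` this is the trivial flag, and there is no condition). -/
structure InvariantFlag (hol : Γ →* (E ≃ᵃ[ℝ] E)) (H : Subgroup Γ) (S : ℕ → Submodule ℝ E)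
    (m : ℕ) : Prop where
  /-- the flag starts with zero -/
  bot : S 0 = ⊥
  /-- the flag ends with the whole space -/
  top : S m = ⊤
  /-- the flag is increasing -/
  mono : ∀ i < m, S i ≤ S (i + 1)
  /-- the flag is invariant -/
  inv : ∀ i ≤ m, ∀ γ ∈ H, ∀ v ∈ S i, (hol γ).linear v ∈ S i

/-- The linear part of `γ` acts on each of the quotients `S (i + 1) / S i` as a scalar multiple
of a map at distance at most `δ` from the identity (the distance is measured in the operator norm
of the quotient): `γ` is `δ`-close to the identity in the product of the projective linear groups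
of the quotients. -/
def NearScalar (hol : Γ →* (E ≃ᵃ[ℝ] E)) (S : ℕ → Submodule ℝ E) (m : ℕ) (γ : Γ) (δ : ℝ) : Prop :=
  ∃ s : ℕ → ℝ, (∀ i, s i ≠ 0) ∧
    ∀ i < m, ∀ v ∈ S (i + 1), ∃ w ∈ S i, ‖s i • (hol γ).linear v - v - w‖ ≤ δ * ‖v‖

/-- The homomorphism from `H` to the product of the projective linear groups of the quotients
`S (i + 1) / S i` given by the linear parts is injective and its image is discrete. -/
def DiscreteFaithful (hol : Γ →* (E ≃ᵃ[ℝ] E)) (H : Subgroup Γ) (S : ℕ → Submodule ℝ E)
    (m : ℕ) : Prop :=
  ∃ δ > 0, ∀ γ ∈ H, NearScalar hol S m γ δ → γ = 1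

end defs

/-- **Theorem.** Let `Γ` be a group of affine transformations of `ℝⁿ` which acts freely and
properly discontinuously with compact quotient on the open set `Ω`, and let `H` be a torsion-free
subgroup of finite index of `Γ`. Suppose that for some flag of subspaces preserved by the linear
parts of the elements of `H`, the homomorphism of `H` to the product of the projective linear groups
of the quotients of the flag is not injective or has a non-discrete image. Then the closed affine
manifold `Γ \ Ω` has decompositions into affine open cells, and for each of them the alternating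
sum of the numbers of cells, the Euler characteristic of `Γ \ Ω`, is zero. -/
theorem result {Γ E : Type} [Group Γ] [NormedAddCommGroup E] [NormedSpace ℝ E]
    [FiniteDimensional ℝ E] {hol : Γ →* (E ≃ᵃ[ℝ] E)} {Ω : Set E} (h : Divides hol Ω)
    (H : Subgroup Γ) (hH : H.FiniteIndex) (htf : ∀ γ ∈ H, ∀ n : ℕ, n ≠ 0 → γ ^ n = 1 → γ = 1)
    (S : ℕ → Submodule ℝ E) (m : ℕ) (hS : InvariantFlag hol H S m)
    (hd : ¬DiscreteFaithful hol H S m) :
    (∃ (k : ℕ) (C : Fin k → Set E) (d : Fin k → ℕ), CellDecomposition hol Ω C d) ∧
      ∀ (k : ℕ) (C : Fin k → Set E) (d : Fin k → ℕ), CellDecomposition hol Ω C d →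
        ∑ i, (-1 : ℤ) ^ d i = 0 := by
  have h' : AffAct Γ E hol Ω := ⟨h.isOpen, h.nonempty, h.inv, h.pd, h.cc⟩
  have hmem : ∀ (g : Γ) (x : E) (C : Set E), x ∈ hol g '' C ↔ hol g⁻¹ x ∈ C := by
    intro g x C
    constructor
    · rintro ⟨y, hy, rfl⟩
      change (hol g⁻¹ * hol g) y ∈ C
      rw [← map_mul, inv_mul_cancel, map_one]
      exact hy
    · intro hx
      refine ⟨_, hx, ?_⟩
      change (hol g * hol g⁻¹) x = x
      rw [← map_mul, mul_inv_cancel, map_one]
      rfl
  refine ⟨?_, ?_⟩
  · obtain ⟨D, hD⟩ := exists_fund h' h.free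
    obtain ⟨k, C, hC, hCD, hone⟩ := exists_cells hD.con
    refine ⟨k, C, fun i => Module.finrank ℝ (vectorSpan ℝ (C i)), fun i => ⟨(hC i).1, ?_, rfl,
      hD.cpt.of_isClosed_subset isClosed_closure (closure_mono (hCD i)),
      (closure_mono (hCD i)).trans hD.sub⟩, ?_⟩
    · exact (hC i).2
    · intro x hx
      obtain ⟨γ, hγ, hγu⟩ := hD.one x hx
      obtain ⟨i, hi, hiu⟩ := hone _ hγ
      refine ⟨(γ⁻¹, i), ?_, ?_⟩
      · change x ∈ hol γ⁻¹ '' C i
        rw [hmem, inv_inv]
        exact hi
      · rintro ⟨δ, j⟩ hj
        change x ∈ hol δ '' C j at hj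
        rw [hmem] at hj
        have h1 : δ⁻¹ = γ := hγu _ (hCD j hj)
        rw [h1] at hj
        have h2 : j = i := hiu j hj
        rw [h2, ← h1, inv_inv]
  · intro k C d hCd
    set D : Set E := ⋃ i, C i with hDdef
    have hcon : ∀ i, Con fun x => x ∈ C i := by
      intro i
      obtain ⟨I, J, hIJ⟩ := (hCd.cell i).cut
      rw [hIJ]
      exact cut_con I J
    have hK : IsCompact (⋃ i, closure (C i)) := isCompact_iUnion fun i => (hCd.cell i).compact
    have hKΩ : (⋃ i, closure (C i)) ⊆ Ω := Set.iUnion_subset fun i => (hCd.cell i).sub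
    have hcl : closure D ⊆ ⋃ i, closure (C i) :=
      closure_minimal (Set.iUnion_mono fun i => subset_closure) hK.isClosed
    have hDΩ : D ⊆ Ω := subset_closure.trans (hcl.trans hKΩ)
    have hD : Fund hol Ω D := by
      refine ⟨?_, hK.of_isClosed_subset isClosed_closure hcl, hcl.trans hKΩ, ?_⟩
      · have h1 := Con.ex hcon
        have e : (fun x => ∃ i, x ∈ C i) = fun x => x ∈ D :=
          funext fun x => propext Set.mem_iUnion.symm
        rwa [e] at h1
      · intro x hx
        obtain ⟨⟨γ, i⟩, hγ, hu⟩ := hCd.part x hx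
        change x ∈ hol γ '' C i at hγ
        rw [hmem] at hγ
        refine ⟨γ⁻¹, Set.mem_iUnion.2 ⟨i, hγ⟩, ?_⟩
        intro δ hδ
        obtain ⟨j, hj⟩ := Set.mem_iUnion.1 hδ
        have h1 := hu (δ⁻¹, j) (by
          change x ∈ hol δ⁻¹ '' C j
          rw [hmem, inv_inv]
          exact hj)
        have h2 : δ⁻¹ = γ := congrArg Prod.fst h1
        rw [← h2, inv_inv]
    have h0 : chi D = 0 := by
      have h'' := AffAct.subH h' H hH
      have hfree' : ∀ γ : H, ∀ x ∈ Ω, (hol.comp H.subtype) γ x = x → γ = 1 := fun γ x hx h1 =>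
        Subtype.ext (h.free γ x hx h1)
      have hinj' := AffAct.inj h'' hfree'
      obtain ⟨A, hAn, hAb, hA⟩ := AffAct.small_blocks h'' hinj' S m hS.bot hS.top hS.mono
        (fun i hi γ v hv => hS.inv i hi γ γ.2 v hv) (by
          intro δ hδ
          by_contra hcon
          refine hd ⟨δ, hδ, fun γ hγH hγ => ?_⟩
          by_contra h1
          exact hcon ⟨⟨γ, hγH⟩, fun h2 => h1 (congrArg Subtype.val h2), hγ⟩)
      have hAi : Infinite A := by
        obtain ⟨a, ha, ha1⟩ : ∃ a : H, a ∈ A ∧ a ≠ 1 := by
          by_contra hcon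
          push Not at hcon
          exact hAb ((Subgroup.eq_bot_iff_forall A).2 hcon)
        refine Infinite.of_injective (fun n : ℕ => (⟨a ^ n, A.pow_mem ha n⟩ : A)) ?_
        have hp : ∀ i j : ℕ, i < j → a ^ i = a ^ j → False := by
          intro i j hij h1
          have h2 : a ^ (j - i) = 1 := by
            have h3 : a ^ (j - i) * a ^ i = 1 * a ^ i := by
              rw [← pow_add, Nat.sub_add_cancel hij.le, one_mul, h1]
            exact mul_right_cancel h3
          have h4 : (a : Γ) ^ (j - i) = 1 := by
            have := congrArg (fun z : H => (z : Γ)) h2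
            simpa using this
          exact ha1 (Subtype.ext (htf _ a.2 (j - i) (by omega) h4))
        intro i j hij
        have h1 : a ^ i = a ^ j := congrArg (fun z : A => (z : H)) hij
        rcases lt_trichotomy i j with h2 | h2 | h2
        · exact (hp i j h2 h1).elim
        · exact h2
        · exact (hp j i h2 h1.symm).elim
      obtain ⟨D', hD', p, hp, hchi⟩ := hD.subH h'.inv H hH
      have h1 := chi_abelian h'' hfree' hA hAn hAi hD'
      rw [hchi] at h1
      exact (mul_eq_zero.1 h1).resolve_left (Nat.cast_ne_zero.2 hp)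
    have h1 : chi D = ∑ i, chi (C i) := by
      refine chi_union Finset.univ C D (fun i _ => hcon i) (fun x => by
        rw [hDdef, Set.mem_iUnion]
        simp) ?_
      intro i _ j _ x hxi hxj
      have hx : x ∈ Ω := hDΩ (Set.mem_iUnion.2 ⟨i, hxi⟩)
      have h2 := (hCd.part x hx).unique (y₁ := ((1 : Γ), i)) (y₂ := ((1 : Γ), j))
        (by
          change x ∈ hol 1 '' C i
          rw [hmem, inv_one, map_one]
          exact hxi)
        (by
          change x ∈ hol 1 '' C j
          rw [hmem, inv_one, map_one]
          exact hxj)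
      exact congrArg Prod.snd h2
    rw [h1] at h0
    rw [← h0]
    refine Finset.sum_congr rfl fun i _ => ?_
    obtain ⟨I, J, hIJ⟩ := (hCd.cell i).cut
    have hIJ' : C i = cut I J := hIJ
    have hne : (cut I J).Nonempty := hIJ' ▸ (hCd.cell i).nonempty
    rw [hIJ', chi_cut I J hne, ← hIJ', (hCd.cell i).dim]

end Pool.Agent.Results.MP_1fa9a4_gt.DiscreteHolonomy
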