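import Pool.Agent.Run7.h262.EC.Cms

/-!
# Chern's conjecture for quotients of domains with an infinite solvable commensurated subgroup

Chern's conjecture says that closed affine manifolds have Euler characteristic zero. Let `Ω` be an
open subset of `ℝⁿ` and let `Γ` be a group of affine transformations of `ℝⁿ` which acts freely and
properly discontinuously on `Ω` with compact quotient `M = Γ \ Ω`. (These are the closed affine
manifolds for which the developing map of the holonomy covering is injective. The set `Ω` need not
be contractible.) We prove that the Euler characteristic of `M` vanishes if `Γ` has an infinite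
virtually solvable subgroup which is normal, or more generally commensurated by `Γ`. There is no
restriction on the dimension, on the linear holonomy or on the volume form.

The Euler characteristic is computed from decompositions of `M` into open cells which are images of
relatively open convex polytopes of `Ω`, for example from affine triangulations. Such
decompositions exist, and for all of them the alternating sum of the numbers of cells is zero.
-/

set_option autoImplicit false

namespace Pool.Agent.Results.MP_1fa9a4_gt.QuotientsOfDomains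

open Run7.h262.EC Run7.h262.TB

section defs

variable {Γ E : Type} [Group Γ] [NormedAddCommGroup E] [NormedSpace ℝ E]

/-- The group `Γ` of affine transformations acts freely and properly discontinuously and with
compact quotient on the open set `Ω`; the quotient `Γ \ Ω` is a closed affine manifold. -/
structure Divides (hol : Γ →* (E ≃ᵃ[ℝ] E)) (Ω : Set E) : Prop where
  /-- the domain is open -/
  isOpen : IsOpen Ω
  /-- the domain is not empty -/
  nonempty : Ω.Nonempty
  /-- the domain is invariant -/
  inv : ∀ γ : Γ, ∀ x ∈ Ω, hol γ x ∈ Ω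
  /-- the action is free -/
  free : ∀ γ : Γ, ∀ x ∈ Ω, hol γ x = x → γ = 1
  /-- the action is properly discontinuous -/
  pd : ∀ K : Set E, IsCompact K → K ⊆ Ω → {γ : Γ | ∃ x ∈ K, hol γ x ∈ K}.Finite
  /-- the quotient is compact -/
  cc : ∃ K : Set E, IsCompact K ∧ K ⊆ Ω ∧ ∀ x ∈ Ω, ∃ γ : Γ, hol γ x ∈ K

/-- An open cell of dimension `d` in `Ω`: a non-empty set given by finitely many affine equations
and strict affine inequalities, whose closure is a compact subset of `Ω`. -/
structure IsCell (Ω C : Set E) (d : ℕ) : Prop where
  /-- the cell is not empty -/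
  nonempty : C.Nonempty
  /-- equations and strict inequalities -/
  cut : ∃ I J : Finset (E →ᵃ[ℝ] ℝ), C = {x | (∀ φ ∈ I, φ x = 0) ∧ ∀ ψ ∈ J, 0 < ψ x}
  /-- the dimension -/
  dim : Module.finrank ℝ (vectorSpan ℝ C) = d
  /-- the closure is compact -/
  compact : IsCompact (closure C)
  /-- the closure is contained in `Ω` -/
  sub : closure C ⊆ Ω

/-- The images of the cells `C i`, of dimension `d i`, form a partition of `Γ \ Ω` into `k` embedded
open cells: every point of `Ω` lies in exactly one translate of one of them. -/
structure CellDecomposition (hol : Γ →* (E ≃ᵃ[ℝ] E)) (Ω : Set E) {k : ℕ} (C : Fin k → Set E)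
    (d : Fin k → ℕ) : Prop where
  /-- the sets are cells -/
  cell : ∀ i, IsCell Ω (C i) (d i)
  /-- their translates form a partition -/
  part : ∀ x ∈ Ω, ∃! p : Γ × Fin k, x ∈ hol p.1 '' C p.2

end defs

/-- The subgroup `N` is commensurated: for every `γ` in `Γ` the intersection of `γ N γ⁻¹` and `N`
has finite index in `N`. For example, `N` may be normal. -/
def Commensurated {Γ : Type} [Group Γ] (N : Subgroup Γ) : Prop :=
  ∀ γ : Γ, (N.map (MulAut.conj γ).toMonoidHom).relIndex N ≠ 0

/-- **Theorem.** Let `Γ` be a group of affine transformations of `ℝⁿ` which acts freely and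
properly discontinuously with compact quotient on the open set `Ω`, and let `N` be an infinite
virtually solvable subgroup of `Γ` which is normal or commensurated. Then the closed affine
manifold `Γ \ Ω` has decompositions into affine open cells, and for each of them the alternating
sum of the numbers of cells, the Euler characteristic of `Γ \ Ω`, is zero. -/
theorem result {Γ E : Type} [Group Γ] [NormedAddCommGroup E] [NormedSpace ℝ E]
    [FiniteDimensional ℝ E] {hol : Γ →* (E ≃ᵃ[ℝ] E)} {Ω : Set E} (h : Divides hol Ω)
    (N : Subgroup Γ) (hinf : Infinite N) (hN : N.Normal ∨ Commensurated N) (S : Subgroup N)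
    (hS : S.FiniteIndex) (hs : Group.IsSolvable S) :
    (∃ (k : ℕ) (C : Fin k → Set E) (d : Fin k → ℕ), CellDecomposition hol Ω C d) ∧
      ∀ (k : ℕ) (C : Fin k → Set E) (d : Fin k → ℕ), CellDecomposition hol Ω C d →
        ∑ i, (-1 : ℤ) ^ d i = 0 := by
  have h' : AffAct Γ E hol Ω := ⟨h.isOpen, h.nonempty, h.inv, h.pd, h.cc⟩
  have hinj := AffAct.inj h' h.free
  have hmem : ∀ (g : Γ) (x : E) (C : Set E), x ∈ hol g '' C ↔ hol g⁻¹ x ∈ C := by
    intro g x C
    constructor
    · rintro ⟨y, hy, rfl⟩
      change (hol g⁻¹ * hol g) y ∈ C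
      rw [← map_mul, inv_mul_cancel, map_one]
      exact hy
    · intro hx
      refine ⟨_, hx, ?_⟩
      change (hol g * hol g⁻¹) x = x
      rw [← map_mul, mul_inv_cancel, map_one]
      rfl
  refine ⟨?_, ?_⟩
  · obtain ⟨D, hD⟩ := exists_fund h' h.free
    obtain ⟨k, C, hC, hCD, hone⟩ := exists_cells hD.con
    refine ⟨k, C, fun i => Module.finrank ℝ (vectorSpan ℝ (C i)), fun i => ⟨(hC i).1, ?_, rfl,
      hD.cpt.of_isClosed_subset isClosed_closure (closure_mono (hCD i)),
      (closure_mono (hCD i)).trans hD.sub⟩, ?_⟩
    · exact (hC i).2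
    · intro x hx
      obtain ⟨γ, hγ, hγu⟩ := hD.one x hx
      obtain ⟨i, hi, hiu⟩ := hone _ hγ
      refine ⟨(γ⁻¹, i), ?_, ?_⟩
      · change x ∈ hol γ⁻¹ '' C i
        rw [hmem, inv_inv]
        exact hi
      · rintro ⟨δ, j⟩ hj
        change x ∈ hol δ '' C j at hj
        rw [hmem] at hj
        have h1 : δ⁻¹ = γ := hγu _ (hCD j hj)
        rw [h1] at hj
        have h2 : j = i := hiu j hj
        rw [h2, ← h1, inv_inv]
  · intro k C d hCd
    set D : Set E := ⋃ i, C i with hDdef
    have hcon : ∀ i, Con fun x => x ∈ C i := by
      intro i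
      obtain ⟨I, J, hIJ⟩ := (hCd.cell i).cut
      rw [hIJ]
      exact cut_con I J
    have hK : IsCompact (⋃ i, closure (C i)) := isCompact_iUnion fun i => (hCd.cell i).compact
    have hKΩ : (⋃ i, closure (C i)) ⊆ Ω := Set.iUnion_subset fun i => (hCd.cell i).sub
    have hcl : closure D ⊆ ⋃ i, closure (C i) :=
      closure_minimal (Set.iUnion_mono fun i => subset_closure) hK.isClosed
    have hDΩ : D ⊆ Ω := subset_closure.trans (hcl.trans hKΩ)
    have hD : Fund hol Ω D := by
      refine ⟨?_, hK.of_isClosed_subset isClosed_closure hcl, hcl.trans hKΩ, ?_⟩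
      · have h1 := Con.ex hcon
        have e : (fun x => ∃ i, x ∈ C i) = fun x => x ∈ D :=
          funext fun x => propext Set.mem_iUnion.symm
        rwa [e] at h1
      · intro x hx
        obtain ⟨⟨γ, i⟩, hγ, hu⟩ := hCd.part x hx
        change x ∈ hol γ '' C i at hγ
        rw [hmem] at hγ
        refine ⟨γ⁻¹, Set.mem_iUnion.2 ⟨i, hγ⟩, ?_⟩
        intro δ hδ
        obtain ⟨j, hj⟩ := Set.mem_iUnion.1 hδ
        have h1 := hu (δ⁻¹, j) (by
          change x ∈ hol δ⁻¹ '' C j
          rw [hmem, inv_inv]
          exact hj)
        have h2 : δ⁻¹ = γ := congrArg Prod.fst h1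
        rw [← h2, inv_inv]
    have hcom : Commensurated N := by
      rcases hN with hN | hN
      · intro γ
        have h1 : N ≤ N.map (MulAut.conj γ).toMonoidHom := by
          intro n hn
          refine ⟨γ⁻¹ * n * γ, ?_, ?_⟩
          · have := hN.conj_mem n hn γ⁻¹
            rwa [inv_inv] at this
          · change γ * (γ⁻¹ * n * γ) * γ⁻¹ = n
            group
        rw [Subgroup.relIndex_eq_one.2 h1]
        exact one_ne_zero
      · exact hN
    obtain ⟨A, hAn, hAi, hA⟩ := exists_commensurated hinj N hinf hcom S hS hs
    have h0 := chi_abelian h' h.free hA hAn hAi hD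
    have h1 : chi D = ∑ i, chi (C i) := by
      refine chi_union Finset.univ C D (fun i _ => hcon i) (fun x => by
        rw [hDdef, Set.mem_iUnion]
        simp) ?_
      intro i _ j _ x hxi hxj
      have hx : x ∈ Ω := hDΩ (Set.mem_iUnion.2 ⟨i, hxi⟩)
      have h2 := (hCd.part x hx).unique (y₁ := ((1 : Γ), i)) (y₂ := ((1 : Γ), j))
        (by
          change x ∈ hol 1 '' C i
          rw [hmem, inv_one, map_one]
          exact hxi)
        (by
          change x ∈ hol 1 '' C j
          rw [hmem, inv_one, map_one]
          exact hxj)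
      exact congrArg Prod.snd h2
    rw [h1] at h0
    rw [← h0]
    refine Finset.sum_congr rfl fun i _ => ?_
    obtain ⟨I, J, hIJ⟩ := (hCd.cell i).cut
    have hIJ' : C i = cut I J := hIJ
    have hne : (cut I J).Nonempty := hIJ' ▸ (hCd.cell i).nonempty
    rw [hIJ', chi_cut I J hne, ← hIJ', (hCd.cell i).dim]

end Pool.Agent.Results.MP_1fa9a4_gt.QuotientsOfDomains
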